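import Pool.Agent.Lib.MP_a43909_al.Main

/-!
# A variety of solvable commutative alternative algebras without a finite basis

Over every field of characteristic 3 there is a variety of commutative alternative (hence Jordan)
algebras, solvable of index 3, which is not defined by finitely many identities.
-/

namespace Pool.Agent.Results.MP_a43909_al.NotFinitelyBased

open Pool.Agent.Lib.MP_a43909_al

universe u

theorem result (F : Type u) [Field F] [CharP F 3] :
    ∃ S : Set (NAPoly F),
      (∀ (A : Type u) [NonUnitalNonAssocRing A] [Module F A] [IsScalarTower F A A]
        [SMulCommClass F A A], InVariety F A S →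
          AlternativeAlg A ∧ JordanAlg A ∧ derivedPower F A 3 = ⊥) ∧
      ¬ FinitelyBased F S := by
  refine ⟨⋃ N, sys F N, ?_, not_finitelyBased F⟩
  intro A _ _ _ _ hA
  have hb : InVariety F A (base F) := fun f hf =>
    hA f (Set.mem_iUnion.2 ⟨0, Or.inl hf⟩)
  exact ⟨base_alternative hb, base_jordan hb, base_derived hb⟩

end Pool.Agent.Results.MP_a43909_al.NotFinitelyBased
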