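import Pool.Agent.Lib.MP_a43909_al.SJ.Main

/-!
# Solvable varieties of Jordan algebras without a finite basis in every positive characteristic

For every prime `p`, every field `F` of characteristic `p` and every `s` with `p < 2 ^ s` there is a
variety of Jordan algebras over `F`, solvable of index `s + 1`, which is not defined by any finite
set of identities.
-/

set_option autoImplicit false

namespace Pool.Agent.Results.MP_a43909_al.SolvableJordan

open Pool.Agent.Lib.MP_a43909_al.SJ

universe u

theorem result (F : Type u) [Field F] (p : ℕ) [Fact p.Prime] [CharP F p] (s : ℕ)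
    (hs : p < 2 ^ s) :
    ∃ S : Set (NPoly F),
      (∀ (A : Type u) [NonUnitalNonAssocRing A] [Module F A] [IsScalarTower F A A]
        [SMulCommClass F A A], InVariety F S A →
          IsJordanAlgebra A ∧ SolvableOfIndex F A (s + 1)) ∧
      ¬ FinitelyBased F S := by
  refine ⟨sys F p s, ?_, not_finitelyBased F p hs⟩
  intro A _ _ _ _ hA
  have h1 := (satisfies_comm F A).mp (hA _ (Or.inl (by simp [base])))
  have h2 := (satisfies_jordan F A).mp (hA _ (Or.inl (by simp [base])))
  have h3 := (satisfies_solv F A (s + 1)).mp (hA _ (Or.inl (by simp [base])))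
  exact ⟨⟨h1, h2⟩, solvable_of_sword F A h3⟩

end Pool.Agent.Results.MP_a43909_al.SolvableJordan
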